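import Pool.Agent.Helper67.PS.DI

/-!
# MP_8013d7_co (full answer), module SC: small codegrees
-/

set_option autoImplicit false

namespace PS

open SimpleGraph Finset Pool.Agent.Helper37.PathSys
open Pool.Agent.Helper37.PathSys.PathSystem

open scoped Classical

noncomputable section

namespace SC

variable {n : ℕ}

lemma kks_le (a : Arc n) : (KKs a).card ≤ nb a := by
  unfold nb
  refine Finset.card_le_card_of_injOn
    (fun p : Pr n => if a p.1.1 p.1.2 ≠ none then (p.1.1, p.1.2) else (p.1.2, p.1.1)) ?_ ?_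
  · intro p hp
    simp only [KKs, coe_filter, mem_univ, true_and, Set.mem_ofPred_eq] at hp ⊢
    split_ifs with h
    · exact h
    · rcases hp with hp | hp
      · exact absurd hp h
      · exact hp
  · intro p _ q _ hpq
    have hp := p.2
    have hq := q.2
    apply Subtype.ext
    apply Prod.ext
    · simp only at hpq
      split_ifs at hpq
      · exact (Prod.ext_iff.1 hpq).1
      · obtain ⟨h1, h2⟩ := Prod.ext_iff.1 hpq
        simp only at h1 h2
        rw [h1, h2] at hp
        exact absurd (hp.trans hq) (lt_irrefl _)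
      · obtain ⟨h1, h2⟩ := Prod.ext_iff.1 hpq
        simp only at h1 h2
        rw [h1, h2] at hp
        exact absurd (hp.trans hq) (lt_irrefl _)
      · exact (Prod.ext_iff.1 hpq).2
    · simp only at hpq
      split_ifs at hpq
      · exact (Prod.ext_iff.1 hpq).2
      · obtain ⟨h1, h2⟩ := Prod.ext_iff.1 hpq
        simp only at h1 h2
        rw [h1, h2] at hp
        exact absurd (hp.trans hq) (lt_irrefl _)
      · obtain ⟨h1, h2⟩ := Prod.ext_iff.1 hpq
        simp only at h1 h2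
        rw [h1, h2] at hp
        exact absurd (hp.trans hq) (lt_irrefl _)
      · exact (Prod.ext_iff.1 hpq).1

/-- Markov's inequality for finite sums -/
lemma markov {ι : Type*} (s : Finset ι) (f : ι → ℝ) (hf : ∀ i ∈ s, 0 ≤ f i) (c : ℝ) :
    c * ((s.filter fun i => c ≤ f i).card : ℝ) ≤ ∑ i ∈ s, f i := by
  calc c * ((s.filter fun i => c ≤ f i).card : ℝ)
      = ∑ _i ∈ s.filter (fun i => c ≤ f i), c := by
        rw [sum_const, nsmul_eq_mul, mul_comm]
    _ ≤ ∑ i ∈ s.filter (fun i => c ≤ f i), f i := by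
        apply sum_le_sum
        intro i hi
        exact (mem_filter.1 hi).2
    _ ≤ ∑ i ∈ s, f i := by
        apply sum_le_sum_of_subset_of_nonneg (filter_subset _ _)
        intro i hi _
        exact hf i hi

/-- common neighbours that are not hubs -/
def out (F : SimpleGraph (Fin n)) (p : Pr n) : ℕ :=
  (univ.filter fun x => F.Adj p.1.1 x ∧ F.Adj p.1.2 x ∧ x ∉ Hs F).card

lemma sum_out (F : SimpleGraph (Fin n)) :
    ∑ p : Pr n, (out F p : ℝ) ≤ ∑ x ∈ univ.filter (fun x => x ∉ Hs F), (dg F x : ℝ) ^ 2 := by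
  have h1 : ∑ p : Pr n, out F p = ∑ x ∈ univ.filter (fun x => x ∉ Hs F),
      (univ.filter fun p : Pr n => F.Adj p.1.1 x ∧ F.Adj p.1.2 x).card := by
    unfold out
    simp_rw [card_filter]
    rw [sum_comm, sum_filter]
    apply sum_congr rfl
    intro x _
    by_cases hx : x ∈ Hs F
    · simp [hx]
    · simp [hx]
  have h2 : ∀ x, (univ.filter fun p : Pr n => F.Adj p.1.1 x ∧ F.Adj p.1.2 x).card ≤
      dg F x ^ 2 := by
    intro x
    have : dg F x ^ 2 = (NF F x ×ˢ NF F x).card := by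
      rw [card_product, dg, sq]
    rw [this]
    refine Finset.card_le_card_of_injOn (fun p : Pr n => p.1) ?_ ?_
    · intro p hp
      simp only [coe_filter, mem_univ, true_and, Set.mem_ofPred_eq] at hp
      simp only [coe_product, Set.mem_prod, mem_coe, NF, mem_filter, mem_univ, true_and]
      exact ⟨hp.1.symm, hp.2.symm⟩
    · intro p _ q _ hpq
      exact Subtype.ext hpq
  have h3 : ∑ p : Pr n, out F p ≤ ∑ x ∈ univ.filter (fun x => x ∉ Hs F), dg F x ^ 2 := by
    rw [h1]
    exact sum_le_sum fun x _ => h2 x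
  exact_mod_cast h3

lemma cod_le (F : SimpleGraph (Fin n)) (p : Pr n) :
    cod F p.1.1 p.1.2 ≤ ((NF F p.1.1 ∩ NF F p.1.2) ∩ Hs F).card + out F p := by
  unfold cod out
  refine le_trans (card_le_card ?_) (card_union_le _ _)
  intro x hx
  simp only [mem_filter, mem_univ, true_and] at hx
  simp only [mem_union, mem_inter, NF, mem_filter, mem_univ, true_and]
  by_cases hH : x ∈ Hs F
  · exact Or.inl ⟨⟨hx.1, hx.2⟩, hH⟩
  · exact Or.inr ⟨hx.1, hx.2, hH⟩

lemma psi_nonneg {t : ℝ} (ht : 0 < t) : 0 ≤ psi t := by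
  unfold psi
  have := Real.log_le_sub_one_of_pos ht
  linarith

lemma psi_small {t : ℝ} (ht : 0 < t) (ht' : t < 1 / 4) : 0.6 ≤ psi t := by
  unfold psi
  have h1 : Real.log t = Real.log (4 * t) - Real.log 4 := by
    rw [Real.log_mul (by norm_num) ht.ne']
    ring
  have h2 := Real.log_le_sub_one_of_pos (x := 4 * t) (by positivity)
  have h3 : Real.log 4 = 2 * Real.log 2 := by
    rw [show (4 : ℝ) = 2 ^ 2 by norm_num, Real.log_pow]
    norm_num
  have h4 := Real.log_two_gt_d9
  rw [h1, h3]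
  linarith

lemma h_pos {h : ℕ} {lam δ : ℝ} (hp : Par n h lam δ) : (0 : ℝ) < h := by
  have h1 := hp.big
  rw [hp.eq] at h1
  rcases Nat.eq_zero_or_pos h with h0 | h0
  · subst h0
    norm_num at h1
  · exact_mod_cast h0

lemma two_le {h : ℕ} {lam δ : ℝ} (hp : Par n h lam δ) : 2 ≤ n := by
  have h1 := hp.big
  have h2 := (abs_le.1 hp.close).1
  have h3 := h_pos hp
  have h4 : (1 : ℝ) ≤ h := by
    have : 0 < h := by exact_mod_cast h3
    exact_mod_cast this
  have h5 : (10 : ℝ) ≤ n / h := by linarith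
  rw [le_div_iff₀ h3] at h5
  have h6 : (2 : ℝ) ≤ n := by linarith
  exact_mod_cast h6

lemma NN_eq (n : ℕ) : NN n = (n : ℝ) * (n - 1) / 2 := by
  unfold NN
  rw [Nat.cast_choose_two]

lemma lh_le (a : Arc n) :
    ∑ p : Pr n, (lh a p.1.1 p.1.2 : ℝ) ≤ (nb a : ℝ) * n := by
  have h1 : ∑ p : Pr n, lh a p.1.1 p.1.2 ≤ nb a * n := by
    unfold lh
    rw [← card_sigma]
    have h2 : nb a * n = ((univ.filter fun q : Fin n × Fin n => a q.1 q.2 ≠ none) ×ˢ
        (univ : Finset (Fin n))).card := by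
      rw [card_product, card_univ, Fintype.card_fin, nb]
    rw [h2]
    refine Finset.card_le_card_of_injOn
      (fun z : (Σ _ : Pr n, Fin n × Fin n) => ((z.2.2, z.1.1.1), z.1.1.2)) ?_ ?_
    · intro z hz
      simp only [coe_sigma, Set.mem_sigma_iff, mem_coe, mem_univ, mem_filter, true_and] at hz
      simp only [coe_product, Set.mem_prod, mem_coe, mem_filter, mem_univ, true_and, and_true]
      rw [hz.2.1]
      simp
    · rintro ⟨p, q⟩ hz ⟨p', q'⟩ hz' heq
      simp only [coe_sigma, Set.mem_sigma_iff, mem_coe, mem_univ, mem_filter, true_and] at hz hz'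
      simp only [Prod.mk.injEq] at heq
      obtain ⟨⟨e1, e2⟩, e3⟩ := heq
      have hpp : p = p' := Subtype.ext (Prod.ext e2 e3)
      subst hpp
      have e4 : q.1 = q'.1 := by
        have := hz.2.1.symm.trans (e1 ▸ hz'.2.1)
        exact Option.some.inj this
      have e5 : q = q' := Prod.ext e4 e1
      rw [e5]
  exact_mod_cast h1

end SC

theorem small_cod (K : ℝ) (hK : 0 < K) : ∃ C : ℝ, 0 < C ∧ ∃ Λ0 : ℝ,
    ∀ (n h s : ℕ) (lam δ ξ : ℝ), Par n h lam δ → Λ0 ≤ lam → 0 < ξ → 4 * ξ / h ≤ 1 / lam →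
    ∀ (G : SimpleGraph (Fin n)) (P : PathSystem G), P.Consistent → Typ K δ lam ξ h s P →
      ((univ.filter fun p : Pr n => 32 * (((NF (dirG P) p.1.1 ∩ NF (dirG P) p.1.2) ∩
        Hs (dirG P)).card : ℝ) < h).card : ℝ) ≤ C * (n : ℝ) ^ 2 / lam := by
  refine ⟨4 + K + 2 * K + 200 * K + 200 * (1600 + 401 * K), by positivity, 0, ?_⟩
  intro n h s lam δ ξ hp _ hξ hξ' G P hP hT
  set F := dirG P with hF
  set a := arcP s P with ha
  have hh : (0 : ℝ) < h := SC.h_pos hp
  have hn2 : (2 : ℝ) ≤ n := by exact_mod_cast SC.two_le hp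
  have hNpos : 0 < NN n := by
    rw [SC.NN_eq]
    have : (0 : ℝ) < (n : ℝ) - 1 := by linarith
    positivity
  have hN2 : 2 * NN n ≤ (n : ℝ) ^ 2 := by
    rw [SC.NN_eq]
    nlinarith
  have hlam : (10 : ℝ) ^ 6 ≤ lam := hp.big
  have hlpos : 0 < lam := by linarith
  have hl1 : 1 ≤ lam := by linarith
  have hnh : (n : ℝ) / h ≤ 2 * lam := by
    have := (abs_le.1 hp.close).2
    linarith
  have hn0 : (0 : ℝ) ≤ n := Nat.cast_nonneg n
  have hE := hT.edges
  have hf0 := hT.f0
  have hnb := hT.nb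
  have hpsi := hT.psi
  rw [← hF] at hE hf0 hpsi
  rw [← ha] at hnb hpsi
  -- the sets
  set S1 : Finset (Pr n) := univ.filter fun p : Pr n => F.Adj p.1.1 p.1.2 with hS1
  set S3 : Finset (Pr n) := (Rem F a).filter fun p =>
    0.6 ≤ psi (4 * ((kap F a p : ℝ) + ξ) / h) with hS3
  set S4 : Finset (Pr n) := univ.filter fun p : Pr n =>
    (h : ℝ) / 100 ≤ (lh a p.1.1 p.1.2 : ℝ) with hS4
  set S5 : Finset (Pr n) := univ.filter fun p : Pr n => (h : ℝ) / 100 ≤ (SC.out F p : ℝ) with hS5
  have hsub : (univ.filter fun p : Pr n => 32 * (((NF F p.1.1 ∩ NF F p.1.2) ∩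
      Hs F).card : ℝ) < h) ⊆ S1 ∪ KKs a ∪ S3 ∪ S4 ∪ S5 := by
    intro p hp1
    simp only [mem_filter, mem_univ, true_and] at hp1
    by_contra hcon
    simp only [mem_union, not_or] at hcon
    obtain ⟨⟨⟨⟨h1, h2⟩, h3⟩, h4⟩, h5⟩ := hcon
    have hR : p ∈ Rem F a := by
      simp only [Rem, mem_filter, mem_univ, true_and]
      refine ⟨?_, h2⟩
      intro hadj
      exact h1 (by simp only [hS1, mem_filter, mem_univ, true_and]; exact hadj)
    have h4' : (lh a p.1.1 p.1.2 : ℝ) < h / 100 := by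
      by_contra hc
      exact h4 (by simp only [hS4, mem_filter, mem_univ, true_and]; exact not_lt.1 hc)
    have h5' : (SC.out F p : ℝ) < h / 100 := by
      by_contra hc
      exact h5 (by simp only [hS5, mem_filter, mem_univ, true_and]; exact not_lt.1 hc)
    have hk0 : (0 : ℝ) ≤ kap F a p := Nat.cast_nonneg _
    have htpos : 0 < 4 * ((kap F a p : ℝ) + ξ) / h := by positivity
    have ht : 1 / 4 ≤ 4 * ((kap F a p : ℝ) + ξ) / h := by
      by_contra hc
      exact h3 (mem_filter.2 ⟨hR, SC.psi_small htpos (not_le.1 hc)⟩)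
    have ht2 : (h : ℝ) / 16 ≤ (kap F a p : ℝ) + ξ := by
      rw [le_div_iff₀ hh] at ht
      linarith
    have hξ2 : ξ ≤ h / 10 ^ 6 := by
      have : 4 * ξ / h ≤ 1 / 10 ^ 6 := hξ'.trans (one_div_le_one_div_of_le (by norm_num) hlam)
      rw [div_le_iff₀ hh] at this
      linarith
    have hc := SC.cod_le F p
    have hc' : (cod F p.1.1 p.1.2 : ℝ) ≤
        (((NF F p.1.1 ∩ NF F p.1.2) ∩ Hs F).card : ℝ) + SC.out F p := by exact_mod_cast hc
    have hkap : (kap F a p : ℝ) = (cod F p.1.1 p.1.2 : ℝ) + lh a p.1.1 p.1.2 := by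
      unfold kap
      push_cast
      rfl
    rw [hkap] at ht2
    linarith
  have hcard : ((univ.filter fun p : Pr n => 32 * (((NF F p.1.1 ∩ NF F p.1.2) ∩
      Hs F).card : ℝ) < h).card : ℝ) ≤
      (S1.card : ℝ) + (KKs a).card + S3.card + S4.card + S5.card := by
    have h1 := card_le_card hsub
    have h2 := card_union_le (S1 ∪ KKs a ∪ S3 ∪ S4) S5
    have h3 := card_union_le (S1 ∪ KKs a ∪ S3) S4
    have h4 := card_union_le (S1 ∪ KKs a) S3
    have h5 := card_union_le S1 (KKs a)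
    have h6 : (univ.filter fun p : Pr n => 32 * (((NF F p.1.1 ∩ NF F p.1.2) ∩
      Hs F).card : ℝ) < h).card ≤ S1.card + (KKs a).card + S3.card + S4.card + S5.card := by
      omega
    exact_mod_cast h6
  -- the bounds
  set N := NN n with hNdef
  have hNl : 0 ≤ N / lam := by positivity
  have hNl2 : N / lam ^ 2 ≤ N / lam := by
    apply div_le_div_of_nonneg_left hNpos.le hlpos
    nlinarith
  have b1 : (S1.card : ℝ) ≤ 4 * (N / lam) := by
    have : (S1.card : ℝ) = nE F := rfl
    rw [this]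
    calc (nE F : ℝ) ≤ 4 * N / lam := hE
      _ = 4 * (N / lam) := by ring
  have hnb' : (nb a : ℝ) ≤ K * (N / lam ^ 2) := by
    calc (nb a : ℝ) ≤ K * N / lam ^ 2 := hnb
      _ = K * (N / lam ^ 2) := by ring
  have b2 : ((KKs a).card : ℝ) ≤ K * (N / lam) := by
    have h1 : ((KKs a).card : ℝ) ≤ nb a := by exact_mod_cast SC.kks_le a
    have h2 : K * (N / lam ^ 2) ≤ K * (N / lam) := mul_le_mul_of_nonneg_left hNl2 hK.le
    linarith
  have b3 : (S3.card : ℝ) ≤ 2 * K * (N / lam) := by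
    have h1 := SC.markov (Rem F a) (fun p => psi (4 * ((kap F a p : ℝ) + ξ) / h))
      (fun p _ => SC.psi_nonneg (by positivity)) 0.6
    have h2 : 0.6 * (S3.card : ℝ) ≤ K * N / lam := h1.trans hpsi
    have h3 : K * N / lam = K * (N / lam) := by ring
    rw [h3] at h2
    have h4 : 0 ≤ K * (N / lam) := by positivity
    linarith
  have b4 : (S4.card : ℝ) ≤ 200 * K * (N / lam) := by
    have h1 := SC.markov (univ : Finset (Pr n)) (fun p => (lh a p.1.1 p.1.2 : ℝ))
      (fun p _ => Nat.cast_nonneg _) ((h : ℝ) / 100)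
    have h2 : (h : ℝ) / 100 * (S4.card : ℝ) ≤ (nb a : ℝ) * n := h1.trans (SC.lh_le a)
    have h3 : (nb a : ℝ) * n ≤ K * (N / lam ^ 2) * n := mul_le_mul_of_nonneg_right hnb' hn0
    have h4 : (S4.card : ℝ) ≤ 100 * (K * (N / lam ^ 2)) * (n / h) := by
      have : (S4.card : ℝ) = (h : ℝ) / 100 * (S4.card : ℝ) * (100 / h) := by
        field_simp
      rw [this]
      calc (h : ℝ) / 100 * (S4.card : ℝ) * (100 / h)
          ≤ K * (N / lam ^ 2) * n * (100 / h) :=
            mul_le_mul_of_nonneg_right (h2.trans h3) (by positivity)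
        _ = 100 * (K * (N / lam ^ 2)) * (n / h) := by ring
    have h5 : 100 * (K * (N / lam ^ 2)) * (n / h) ≤ 100 * (K * (N / lam ^ 2)) * (2 * lam) :=
      mul_le_mul_of_nonneg_left hnh (by positivity)
    have h6 : 100 * (K * (N / lam ^ 2)) * (2 * lam) = 200 * K * (N / lam) := by
      field_simp
      ring
    linarith
  have b5 : (S5.card : ℝ) ≤ 200 * (1600 + 401 * K) * (N / lam) := by
    have h1 := SC.markov (univ : Finset (Pr n)) (fun p => (SC.out F p : ℝ))
      (fun p _ => Nat.cast_nonneg _) ((h : ℝ) / 100)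
    have hH := Hs_card hp hE
    have hl := light_sq F
    have h2 : (h : ℝ) / 100 * (S5.card : ℝ) ≤
        (Hs F).card * ((nE F : ℝ) + f0 F) + (n : ℝ) / 50 * f0 F :=
      (h1.trans (SC.sum_out F)).trans hl
    have hf0' : (f0 F : ℝ) ≤ K * (N / lam ^ 2) := by
      calc (f0 F : ℝ) ≤ K * N / lam ^ 2 := hf0
        _ = K * (N / lam ^ 2) := by ring
    have hf0l : (f0 F : ℝ) ≤ K * (N / lam) :=
      hf0'.trans (mul_le_mul_of_nonneg_left hNl2 hK.le)
    have hE' : (nE F : ℝ) ≤ 4 * (N / lam) := by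
      calc (nE F : ℝ) ≤ 4 * N / lam := hE
        _ = 4 * (N / lam) := by ring
    have h3 : ((Hs F).card : ℝ) * ((nE F : ℝ) + f0 F) ≤
        400 * n / lam * ((4 + K) * (N / lam)) := by
      apply mul_le_mul hH _ (by positivity) (by positivity)
      linarith
    have h4 : (n : ℝ) / 50 * f0 F ≤ n * (K * (N / lam ^ 2)) := by
      have : (n : ℝ) / 50 * f0 F ≤ n * f0 F := by
        apply mul_le_mul_of_nonneg_right _ (Nat.cast_nonneg _)
        linarith
      exact this.trans (mul_le_mul_of_nonneg_left hf0' hn0)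
    have h5 : 400 * n / lam * ((4 + K) * (N / lam)) + n * (K * (N / lam ^ 2)) =
        n * (1600 + 401 * K) * (N / lam ^ 2) := by
      field_simp
      ring
    have h6 : (h : ℝ) / 100 * (S5.card : ℝ) ≤ n * (1600 + 401 * K) * (N / lam ^ 2) := by
      linarith
    have h7 : (S5.card : ℝ) ≤ 100 * ((1600 + 401 * K) * (N / lam ^ 2)) * (n / h) := by
      have : (S5.card : ℝ) = (h : ℝ) / 100 * (S5.card : ℝ) * (100 / h) := by
        field_simp
      rw [this]
      calc (h : ℝ) / 100 * (S5.card : ℝ) * (100 / h)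
          ≤ n * (1600 + 401 * K) * (N / lam ^ 2) * (100 / h) :=
            mul_le_mul_of_nonneg_right h6 (by positivity)
        _ = 100 * ((1600 + 401 * K) * (N / lam ^ 2)) * (n / h) := by ring
    have h8 : 100 * ((1600 + 401 * K) * (N / lam ^ 2)) * (n / h) ≤
        100 * ((1600 + 401 * K) * (N / lam ^ 2)) * (2 * lam) :=
      mul_le_mul_of_nonneg_left hnh (by positivity)
    have h9 : 100 * ((1600 + 401 * K) * (N / lam ^ 2)) * (2 * lam) =
        200 * (1600 + 401 * K) * (N / lam) := by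
      field_simp
      ring
    linarith
  have hNn : N / lam ≤ (n : ℝ) ^ 2 / lam := by
    apply div_le_div_of_nonneg_right _ hlpos.le
    linarith
  have hfin : (4 + K + 2 * K + 200 * K + 200 * (1600 + 401 * K)) * (N / lam) ≤
      (4 + K + 2 * K + 200 * K + 200 * (1600 + 401 * K)) * ((n : ℝ) ^ 2 / lam) :=
    mul_le_mul_of_nonneg_left hNn (by positivity)
  calc ((univ.filter fun p : Pr n => 32 * (((NF F p.1.1 ∩ NF F p.1.2) ∩
      Hs F).card : ℝ) < h).card : ℝ)
      ≤ (4 + K + 2 * K + 200 * K + 200 * (1600 + 401 * K)) * (N / lam) := by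
        linarith
    _ ≤ (4 + K + 2 * K + 200 * K + 200 * (1600 + 401 * K)) * ((n : ℝ) ^ 2 / lam) := hfin
    _ = (4 + K + 2 * K + 200 * K + 200 * (1600 + 401 * K)) * (n : ℝ) ^ 2 / lam := by ring

end

end PS
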